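import Pool.Agent.L7h64.FB.Stm
import Pool.Agent.H241R3.FV.TInv
import Pool.Agent.H241R3.FV.TBdry
import Pool.Agent.H241R3.FV.TConst

/-! Basic facts of project FB (helper64): continuity of Lipschitz functions, of dl, the second moments
of the sphere. -/

set_option autoImplicit false
set_option linter.unusedVariables false
set_option maxHeartbeats 400000

open MeasureTheory Metric Set Filter Topology InnerProductGeometry

namespace Pool.Agent.L7h41.FB

open Pool.Agent.H241R3.FV (E Sph sig om rot)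
open Pool.Agent.L7h64.FB

instance sig_fin : IsFiniteMeasure (sig 3) :=
  inferInstanceAs (IsFiniteMeasure (volume : Measure (E 3)).toSphere)

theorem norm_sph (θ : Sph 3) : ‖(θ : E 3)‖ = 1 := by simpa using θ.2

theorem sph_ne (θ : Sph 3) : (θ : E 3) ≠ 0 := by
  intro h
  have h1 := norm_sph θ
  rw [h, norm_zero] at h1
  exact zero_ne_one h1

theorem lip_cont {F : Sph 3 → ℝ} (hF : Lip1 F) : Continuous F := by
  rw [continuous_iff_continuousAt]
  intro θ
  have h0 : (θ : E 3) ≠ 0 := sph_ne θ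
  have h1 : Tendsto (fun θ' : Sph 3 => angle (θ' : E 3) (θ : E 3)) (𝓝 θ) (𝓝 0) := by
    have h2 : ContinuousAt (fun θ' : Sph 3 => angle (θ' : E 3) (θ : E 3)) θ := by
      have h3 := InnerProductGeometry.continuousAt_angle (x := ((θ : E 3), (θ : E 3))) h0 h0
      have h4 : ContinuousAt (fun θ' : Sph 3 => ((θ' : E 3), (θ : E 3))) θ := by
        apply Continuous.continuousAt
        fun_prop
      exact ContinuousAt.comp (f := fun θ' : Sph 3 => ((θ' : E 3), (θ : E 3))) h3 h4
    have h5 := h2.tendsto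
    rwa [InnerProductGeometry.angle_self h0] at h5
  unfold ContinuousAt
  rw [tendsto_iff_dist_tendsto_zero]
  refine squeeze_zero (fun _ => dist_nonneg) (fun θ' => ?_) h1
  rw [Real.dist_eq]
  exact hF θ' θ

theorem integrable_sig {G : Type*} [NormedAddCommGroup G] {f : Sph 3 → G} (hf : Continuous f) :
    Integrable f (sig 3) :=
  hf.integrable_of_hasCompactSupport (HasCompactSupport.of_compactSpace f)

theorem inner_Gi {e : E 3} (he : ‖e‖ = 1) (r : ℝ) (z : E 3) :
    (inner ℝ e (Gi e r z) : ℝ) = 1 / √(1 - r ^ 2) * inner ℝ e z := by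
  unfold Gi
  rw [inner_add_right, real_inner_smul_right, real_inner_self_eq_norm_sq, he]
  ring

theorem Gi_ne {e : E 3} (he : ‖e‖ = 1) {r : ℝ} (h0 : 0 ≤ r) (h1 : r < 1) {z : E 3} (hz : z ≠ 0) :
    Gi e r z ≠ 0 := by
  intro h
  have h2 := inner_Gi he r z
  have h3 : 0 < √(1 - r ^ 2) := Real.sqrt_pos.2 (by nlinarith)
  rw [h, inner_zero_right] at h2
  have h4 : (inner ℝ e z : ℝ) = 0 := by
    rcases mul_eq_zero.1 h2.symm with h5 | h5
    · exact absurd h5 (by positivity)
    · exact h5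
  unfold Gi at h
  rw [h4, mul_zero, zero_smul, add_zero] at h
  exact hz h

theorem pt_cont {X : Type*} [TopologicalSpace X] {g : X → E 3} (hg : Continuous g)
    (h0 : ∀ x, g x ≠ 0) : Continuous (fun x => pt (g x)) := by
  rw [continuous_induced_rng]
  have h1 : (Subtype.val ∘ fun x => pt (g x)) = fun x => ‖g x‖⁻¹ • g x := by
    funext x
    simp only [Function.comp, pt, dif_pos (h0 x)]
  rw [h1]
  exact (hg.norm.inv₀ (fun x => norm_ne_zero_iff.2 (h0 x))).smul hg

theorem Gi_cont (e : E 3) (r : ℝ) : Continuous (Gi e r) := by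
  unfold Gi
  fun_prop

theorem dl_cont {F : Sph 3 → ℝ} (hF : Lip1 F) {e : E 3} (he : ‖e‖ = 1) {r : ℝ} (h0 : 0 ≤ r)
    (h1 : r < 1) : Continuous (fun u : Sph 3 => dl F e r (u : E 3)) := by
  unfold dl
  apply Continuous.sub
  · exact (lip_cont hF).comp (pt_cont ((Gi_cont e r).comp continuous_subtype_val)
      (fun u => Gi_ne he h0 h1 (sph_ne u)))
  · apply Real.continuous_arctan.comp
    apply Continuous.mul continuous_const
    apply Continuous.div (by fun_prop) (by fun_prop)
    intro u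
    rw [norm_sph]
    exact one_ne_zero

theorem sig_tot : (sig 3).real univ = 4 * Real.pi := by
  rw [Pool.Agent.H241R3.FV.TConst.sig_univ 3 (by norm_num)]
  unfold om
  rw [Measure.real, EuclideanSpace.volume_ball_fin_three]
  rw [ENNReal.toReal_mul, ENNReal.toReal_pow, ENNReal.toReal_ofReal zero_le_one,
    ENNReal.toReal_ofReal (by positivity)]
  push_cast
  ring

theorem sq_rot (R : E 3 ≃ₗᵢ[ℝ] E 3) (v : E 3) :
    ∫ u : Sph 3, (inner ℝ (u : E 3) (R v) : ℝ) ^ 2 ∂(sig 3) =
      ∫ u : Sph 3, (inner ℝ (u : E 3) v : ℝ) ^ 2 ∂(sig 3) := by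
  rw [← Pool.Agent.H241R3.FV.TBdry.int_rot (by norm_num) Pool.Agent.H241R3.FV.TInv.taskInv R
    (fun u : Sph 3 => (inner ℝ (u : E 3) (R v) : ℝ) ^ 2)]
  congr 1
  funext u
  simp only [rot, LinearIsometryEquiv.inner_map_map]

theorem int_one : ∫ u : Sph 3, (1 : ℝ) ∂(sig 3) = 4 * Real.pi := by
  rw [integral_const, sig_tot, smul_eq_mul, mul_one]

/-- second moments -/
theorem int_sq (v : E 3) : ∫ u : Sph 3, (inner ℝ (u : E 3) v : ℝ) ^ 2 ∂(sig 3) =
    4 * Real.pi / 3 * ‖v‖ ^ 2 := by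
  have key : ∀ v : E 3, ‖v‖ = 1 → ∫ u : Sph 3, (inner ℝ (u : E 3) v : ℝ) ^ 2 ∂(sig 3) =
      4 * Real.pi / 3 := by
    intro v hv
    have hb : ∀ i : Fin 3, ∫ u : Sph 3, (inner ℝ (u : E 3) (EuclideanSpace.single i (1 : ℝ)) : ℝ) ^ 2
        ∂(sig 3) = ∫ u : Sph 3, (inner ℝ (u : E 3) v : ℝ) ^ 2 ∂(sig 3) := by
      intro i
      have hn : ‖v‖ = ‖(EuclideanSpace.single i (1 : ℝ) : E 3)‖ := by simp [hv]
      have h1 := Submodule.reflection_sub hn
      rw [← h1]
      exact sq_rot _ v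
    have hs : ∑ i : Fin 3, ∫ u : Sph 3, (inner ℝ (u : E 3) (EuclideanSpace.single i (1 : ℝ)) : ℝ) ^ 2
        ∂(sig 3) = 4 * Real.pi := by
      rw [← integral_finsetSum _ (fun i _ => integrable_sig (by fun_prop)), ← int_one]
      congr 1
      funext u
      have h2 := norm_sph u
      rw [EuclideanSpace.norm_eq, Real.sqrt_eq_one] at h2
      refine Eq.trans ?_ h2
      apply Finset.sum_congr rfl
      intro i _
      rw [EuclideanSpace.inner_single_right]
      simp
    rw [Finset.sum_congr rfl (fun i _ => hb i), Finset.sum_const, Finset.card_univ,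
      Fintype.card_fin, nsmul_eq_mul] at hs
    push_cast at hs
    linarith
  rcases eq_or_ne v 0 with h | h
  · simp [h]
  · have hn : ‖v‖ ≠ 0 := norm_ne_zero_iff.2 h
    have h1 := key (‖v‖⁻¹ • v) (by simp [norm_smul, hn])
    have h2 : ∀ u : Sph 3, (inner ℝ (u : E 3) v : ℝ) ^ 2 =
        ‖v‖ ^ 2 * (inner ℝ (u : E 3) (‖v‖⁻¹ • v) : ℝ) ^ 2 := by
      intro u
      rw [real_inner_smul_right]
      field_simp
    rw [integral_congr_ae (Eventually.of_forall h2), integral_const_mul, h1]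
    ring

end Pool.Agent.L7h41.FB
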