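import Pool.Agent.L7h41.FB.Base

/-! [FB-QF] of project FB (helper64): the quadratic form B. -/

set_option autoImplicit false
set_option linter.unusedVariables false
set_option maxHeartbeats 400000

open MeasureTheory Metric Set Filter Topology InnerProductGeometry

namespace Pool.Agent.L7h41.FB

open Pool.Agent.H241R3.FV (E Sph sig om rot)
open Pool.Agent.L7h64.FB

/-- the third moment -/
noncomputable def JJ (F : Sph 3 → ℝ) (e : E 3) (r : ℝ) (v : E 3) : ℝ :=
  ∫ u : Sph 3, dl F e r (u : E 3) * ((inner ℝ e (u : E 3) : ℝ) * (inner ℝ (u : E 3) v : ℝ) ^ 2)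
    ∂(sig 3)

section

variable {F : Sph 3 → ℝ} (hF : Lip1 F) {e : E 3} (he : ‖e‖ = 1) {r : ℝ} (h0 : 0 ≤ r) (h1 : r < 1)

include hF he h0 h1

theorem int_comb (v : E 3) (α β γ : ℝ) :
    ∫ u : Sph 3, dl F e r (u : E 3) * (α * ((inner ℝ e (u : E 3) : ℝ) *
      (inner ℝ (u : E 3) v : ℝ) ^ 2) + β * (inner ℝ (u : E 3) v : ℝ) +
      γ * (inner ℝ (u : E 3) e : ℝ)) ∂(sig 3) =
      α * JJ F e r v + β * am F e r v + γ * am F e r e := by
  have hc := dl_cont hF he h0 h1
  unfold JJ am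
  rw [← integral_const_mul, ← integral_const_mul, ← integral_const_mul, ← integral_add,
    ← integral_add]
  · congr 1
    funext u
    ring
  · exact (integrable_sig (continuous_const.mul (hc.mul (by fun_prop)))).add
      (integrable_sig (continuous_const.mul (hc.mul (by fun_prop))))
  · exact integrable_sig (continuous_const.mul (hc.mul (by fun_prop)))
  · exact integrable_sig (continuous_const.mul (hc.mul (by fun_prop)))
  · exact integrable_sig (continuous_const.mul (hc.mul (by fun_prop)))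

theorem first_diag (v : E 3) :
    ∫ u : Sph 3, (1 - 4 * (r / √(1 - r ^ 2)) * (inner ℝ e (u : E 3) : ℝ) * dl F e r (u : E 3)) *
    (inner ℝ (u : E 3) v : ℝ) * (inner ℝ (u : E 3) v : ℝ) ∂(sig 3) =
      4 * Real.pi / 3 * ‖v‖ ^ 2 - 4 * (r / √(1 - r ^ 2)) * JJ F e r v := by
  have hc := dl_cont hF he h0 h1
  unfold JJ
  rw [← int_sq v, ← integral_const_mul, ← integral_sub]
  · congr 1
    funext u
    ring
  · exact integrable_sig (by fun_prop)
  · exact integrable_sig (continuous_const.mul (hc.mul (by fun_prop)))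

theorem BB_diag (v : E 3) : BB F e r v v = 4 * Real.pi / 3 * ‖v‖ ^ 2 -
    4 * (r / √(1 - r ^ 2)) * JJ F e r v +
    2 * (r / √(1 - r ^ 2)) * (inner ℝ e v : ℝ) * am F e r v := by
  unfold BB
  rw [first_diag hF he h0 h1 v]

theorem JJ_sum (b : OrthonormalBasis (Fin 3) ℝ (E 3)) : ∑ i, JJ F e r (b i) = am F e r e := by
  have hc := dl_cont hF he h0 h1
  unfold JJ am
  rw [← integral_finsetSum Finset.univ (f := fun (i : Fin 3) (u : Sph 3) => dl F e r (u : E 3) *
    ((inner ℝ e (u : E 3) : ℝ) * (inner ℝ (u : E 3) (b i) : ℝ) ^ 2))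
    (fun i _ => integrable_sig (hc.mul (by fun_prop)))]
  congr 1
  funext u
  rw [← Finset.mul_sum, ← Finset.mul_sum]
  have h2 := b.sum_sq_norm_inner_left (u : E 3)
  simp only [Real.norm_eq_abs, sq_abs] at h2
  rw [h2, norm_sph, real_inner_comm]
  ring

theorem am_sum (b : OrthonormalBasis (Fin 3) ℝ (E 3)) :
    ∑ i, (inner ℝ e (b i) : ℝ) * am F e r (b i) = am F e r e := by
  have hc := dl_cont hF he h0 h1
  unfold am
  have h2 : ∀ i : Fin 3, (inner ℝ e (b i) : ℝ) * ∫ u : Sph 3, dl F e r (u : E 3) *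
      (inner ℝ (u : E 3) (b i) : ℝ) ∂(sig 3) = ∫ u : Sph 3, dl F e r (u : E 3) *
      ((inner ℝ e (b i) : ℝ) * (inner ℝ (b i) (u : E 3) : ℝ)) ∂(sig 3) := by
    intro i
    rw [← integral_const_mul]
    congr 1
    funext u
    rw [real_inner_comm (u : E 3) (b i)]
    ring
  rw [Finset.sum_congr rfl (fun i _ => h2 i),
    ← integral_finsetSum Finset.univ (f := fun (i : Fin 3) (u : Sph 3) => dl F e r (u : E 3) *
      ((inner ℝ e (b i) : ℝ) * (inner ℝ (b i) (u : E 3) : ℝ)))
      (fun i _ => integrable_sig (hc.mul (by fun_prop)))]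
  congr 1
  funext u
  rw [← Finset.mul_sum, b.sum_inner_mul_inner, real_inner_comm]

end

/-- [FB-QF] -/
theorem s_QF (hD : S_DIV) (hU : S_U) (hL : S_L) (hL0 : S_L0) : S_QF := by
  intro e he r h0 h1 F hF
  have hτ : 0 ≤ r / √(1 - r ^ 2) := div_nonneg h0 (Real.sqrt_nonneg _)
  have hl0 : 0 ≤ 2 * r / (1 + r) := by positivity
  have hl1 : 2 * r / (1 + r) ≤ 1 := by
    rw [div_le_one (by linarith)]
    linarith
  refine ⟨fun v hv => ?_, fun v w => ?_, fun b => ?_⟩
  · have hB := BB_diag hF he h0 h1 v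
    rw [hv] at hB
    obtain ⟨u1, u2⟩ := hU e v he hv
    obtain ⟨l1, l2⟩ := hL e v he hv
    obtain ⟨k1, k2⟩ := hL0 e v he hv
    have d1 := hD e he r h0 h1 F hF (-e) v v 0 0 0 ((inner ℝ e v : ℝ) / 2) 0 u1
    have d2 := hD e he r h0 h1 F hF ((83 / 100 : ℝ) • v) v e ((17 / 100 : ℝ) • e) v v 0 0 l1
    have d3 := hD e he r h0 h1 F hF v v e 0 0 0 0 0 k1
    have e1 : ∫ u : Sph 3, dl F e r (u : E 3) *
      (4 * (qf (-e) v ((inner ℝ e v : ℝ) / 2) (u : E 3) * (inner ℝ (u : E 3) v : ℝ) +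
        qf 0 0 0 (u : E 3) * (inner ℝ (u : E 3) (0 : E 3) : ℝ)) -
        (dq (-e) v ((inner ℝ e v : ℝ) / 2) v (u : E 3) + dq 0 0 0 0 (u : E 3))) ∂(sig 3) =
        (-4) * JJ F e r v + (2 * (inner ℝ e v : ℝ)) * am F e r v + 1 * am F e r e := by
      rw [← int_comb hF he h0 h1]
      congr 1
      funext u
      congr 1
      unfold qf dq
      simp only [inner_neg_left, inner_zero_left, inner_zero_right, norm_sph, real_inner_self_eq_norm_sq,
        hv, real_inner_comm v (u : E 3), real_inner_comm e (u : E 3), real_inner_comm e v]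
      ring
    have e2 : ∫ u : Sph 3, dl F e r (u : E 3) *
      (4 * (qf ((83 / 100 : ℝ) • v) v 0 (u : E 3) * (inner ℝ (u : E 3) e : ℝ) +
        qf ((17 / 100 : ℝ) • e) v 0 (u : E 3) * (inner ℝ (u : E 3) v : ℝ)) -
        (dq ((83 / 100 : ℝ) • v) v 0 e (u : E 3) + dq ((17 / 100 : ℝ) • e) v 0 v (u : E 3))) ∂(sig 3) =
        4 * JJ F e r v + (-(183 / 100) * (inner ℝ e v : ℝ)) * am F e r v + (-(17 / 100)) * am F e r e := by
      rw [← int_comb hF he h0 h1]
      congr 1
      funext u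
      congr 1
      unfold qf dq
      simp only [real_inner_smul_left, real_inner_self_eq_norm_sq,
        hv, he, real_inner_comm v (u : E 3), real_inner_comm e (u : E 3), real_inner_comm e v]
      ring
    have e3 : ∫ u : Sph 3, dl F e r (u : E 3) *
      (4 * (qf v v 0 (u : E 3) * (inner ℝ (u : E 3) e : ℝ) +
        qf 0 0 0 (u : E 3) * (inner ℝ (u : E 3) (0 : E 3) : ℝ)) -
        (dq v v 0 e (u : E 3) + dq 0 0 0 0 (u : E 3))) ∂(sig 3) =
        4 * JJ F e r v + (-2 * (inner ℝ e v : ℝ)) * am F e r v + 0 * am F e r e := by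
      rw [← int_comb hF he h0 h1]
      congr 1
      funext u
      congr 1
      unfold qf dq
      simp only [inner_zero_left, inner_zero_right, real_inner_self_eq_norm_sq,
        hv, real_inner_comm v (u : E 3), real_inner_comm e (u : E 3), real_inner_comm e v]
      ring
    rw [e1] at d1
    rw [e2] at d2
    rw [e3] at d3
    have m1 := d1.trans (mul_le_mul_of_nonneg_left u2 hl0)
    have m2 := d2.trans (mul_le_mul_of_nonneg_left l2 hl0)
    have m3 := d3.trans (mul_le_mul_of_nonneg_left k2 hl0)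
    have hpi := Real.pi_pos
    have m4 : 2 * r / (1 + r) * (2 * Real.pi / 3) ≤ 1 * (2 * Real.pi / 3) :=
      mul_le_mul_of_nonneg_right hl1 (by positivity)
    rw [hB]
    refine ⟨?_, ?_, ?_⟩ <;> nlinarith [m1, m2, m3, m4]
  · unfold BB
    have h2 : (∫ u : Sph 3, (1 - 4 * (r / √(1 - r ^ 2)) * (inner ℝ e (u : E 3) : ℝ) *
        dl F e r (u : E 3)) * (inner ℝ (u : E 3) v : ℝ) * (inner ℝ (u : E 3) w : ℝ) ∂(sig 3)) =
        ∫ u : Sph 3, (1 - 4 * (r / √(1 - r ^ 2)) * (inner ℝ e (u : E 3) : ℝ) *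
        dl F e r (u : E 3)) * (inner ℝ (u : E 3) w : ℝ) * (inner ℝ (u : E 3) v : ℝ) ∂(sig 3) := by
      congr 1
      funext u
      ring
    rw [h2]
    ring
  · have h2 : ∀ i, BB F e r (b i) (b i) = 4 * Real.pi / 3 - 4 * (r / √(1 - r ^ 2)) *
        JJ F e r (b i) + 2 * (r / √(1 - r ^ 2)) * ((inner ℝ e (b i) : ℝ) * am F e r (b i)) := by
      intro i
      rw [BB_diag hF he h0 h1, b.norm_eq_one]
      ring
    rw [Finset.sum_congr rfl (fun i _ => h2 i), Finset.sum_add_distrib, Finset.sum_sub_distrib,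
      ← Finset.mul_sum, ← Finset.mul_sum, JJ_sum hF he h0 h1, am_sum hF he h0 h1, Finset.sum_const,
      Finset.card_univ, Fintype.card_fin, nsmul_eq_mul]
    push_cast
    ring

end Pool.Agent.L7h41.FB
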